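import Pool.Agent.Helper58.TR.Mul
import Pool.Agent.Helper92.FW.Chn
import Pool.Agent.Helper99.VW.Uni
import Pool.Agent.Helper61.GL.Push

/-!
# Windows see the node law, in total variation ((2.2) of ns_notes_58)

* `pinsker` : for two laws on a finite set, `P S ≤ Q S + 2 √(∑ Q φ(P / Q))`;
* `cle_of_mi` : the law of `W` given `(X, g)` is within `ε` of the law of `W` given `g`, up to mass `4 ε⁻² I(W ; X | g)`;
* `windows_close` : at most levels of the recorded tree the law of the window given `(X, node)` is the node law.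
-/

set_option autoImplicit false

namespace Pool.Agent.Helper58.TR

open Finset Pool.Agent.Helper69.RK Pool.Agent.Helper61.GL Pool.Agent.Helper58.VW Pool.Agent.Helper46.WF
open Pool.Agent.Helper92.FW (Cle)
open Pool.Agent.Helper99.VW (phi_sqrt cw_congr')

variable {Ω V χ γ : Type} [Fintype Ω] [Fintype V]

theorem pinsker (P Q : V → ℝ) (hP : ∀ v, 0 ≤ P v) (hQ : ∀ v, 0 ≤ Q v) (hP1 : ∑ v, P v = 1) (hQ1 : ∑ v, Q v = 1)
    (h0 : ∀ v, Q v = 0 → P v = 0) (S : V → Prop) :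
    Pw P S ≤ Pw Q S + 2 * Real.sqrt (∑ v, Q v * phi (P v / Q v)) := by
  classical
  have h1 : Pw P S - Pw Q S ≤ ∑ v, |Real.sqrt (P v) - Real.sqrt (Q v)| * (Real.sqrt (P v) + Real.sqrt (Q v)) := by
    unfold Pw
    rw [← Finset.sum_sub_distrib]
    refine Finset.sum_le_sum fun v _ => ?_
    have e1 : P v - Q v = (Real.sqrt (P v) - Real.sqrt (Q v)) * (Real.sqrt (P v) + Real.sqrt (Q v)) := by
      have a1 := Real.mul_self_sqrt (hP v)
      have a2 := Real.mul_self_sqrt (hQ v)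
      nlinarith
    have e2 : (Real.sqrt (P v) - Real.sqrt (Q v)) * (Real.sqrt (P v) + Real.sqrt (Q v)) ≤
        |Real.sqrt (P v) - Real.sqrt (Q v)| * (Real.sqrt (P v) + Real.sqrt (Q v)) :=
      mul_le_mul_of_nonneg_right (le_abs_self _) (add_nonneg (Real.sqrt_nonneg _) (Real.sqrt_nonneg _))
    split_ifs
    · rw [e1]
      exact e2
    · rw [sub_zero]
      exact mul_nonneg (abs_nonneg _) (add_nonneg (Real.sqrt_nonneg _) (Real.sqrt_nonneg _))
  have h2 := Finset.sum_mul_sq_le_sq_mul_sq (univ : Finset V) (fun v => |Real.sqrt (P v) - Real.sqrt (Q v)|)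
    (fun v => Real.sqrt (P v) + Real.sqrt (Q v))
  have h3 : ∑ v, |Real.sqrt (P v) - Real.sqrt (Q v)| ^ 2 ≤ ∑ v, Q v * phi (P v / Q v) := by
    refine Finset.sum_le_sum fun v _ => ?_
    rw [sq_abs]
    by_cases hq : Q v = 0
    · rw [hq, h0 v hq]
      simp
    · have hq0 : 0 < Q v := lt_of_le_of_ne (hQ v) (Ne.symm hq)
      have e1 := phi_sqrt (div_nonneg (hP v) (hQ v))
      have e2 : (Real.sqrt (P v) - Real.sqrt (Q v)) ^ 2 = Q v * (Real.sqrt (P v / Q v) - 1) ^ 2 := by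
        rw [Real.sqrt_div (hP v)]
        have hs : 0 < Real.sqrt (Q v) := Real.sqrt_pos.mpr hq0
        have hs2 : Q v = Real.sqrt (Q v) ^ 2 := (Real.sq_sqrt (hQ v)).symm
        nth_rewrite 2 [hs2]
        field_simp
      rw [e2]
      exact mul_le_mul_of_nonneg_left e1 (hQ v)
  have h4 : ∑ v, (Real.sqrt (P v) + Real.sqrt (Q v)) ^ 2 ≤ 4 := by
    have e1 : ∀ v ∈ (univ : Finset V), (Real.sqrt (P v) + Real.sqrt (Q v)) ^ 2 ≤ 2 * P v + 2 * Q v := by
      intro v _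
      have a1 := Real.sq_sqrt (hP v)
      have a2 := Real.sq_sqrt (hQ v)
      nlinarith [sq_nonneg (Real.sqrt (P v) - Real.sqrt (Q v))]
    refine le_trans (Finset.sum_le_sum e1) ?_
    rw [Finset.sum_add_distrib, ← Finset.mul_sum, ← Finset.mul_sum, hP1, hQ1]
    norm_num
  have hK : 0 ≤ ∑ v, Q v * phi (P v / Q v) :=
    Finset.sum_nonneg fun v _ => mul_nonneg (hQ v) (phi_nonneg (div_nonneg (hP v) (hQ v)))
  have h5 : (∑ v, |Real.sqrt (P v) - Real.sqrt (Q v)| * (Real.sqrt (P v) + Real.sqrt (Q v))) ^ 2 ≤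
      (2 * Real.sqrt (∑ v, Q v * phi (P v / Q v))) ^ 2 := by
    refine h2.trans ?_
    rw [mul_pow, Real.sq_sqrt hK]
    have e1 := mul_le_mul h3 h4 (Finset.sum_nonneg fun v _ => sq_nonneg _) hK
    linarith
  have h6 := abs_le_of_sq_le_sq' h5 (by positivity)
  linarith [h6.2]

/-- the law of `W` given the label `g` at the point `ω` -/
noncomputable def lw (μ : Ω → ℝ) (g : Ω → γ) (W : Ω → V) (ω : Ω) (v : V) : ℝ := Pw (cw μ g ω) (fun ω' => W ω' = v)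

omit [Fintype V] in
theorem lw_nonneg (μ : Ω → ℝ) (hμ : ∀ ω, 0 ≤ μ ω) (g : Ω → γ) (W : Ω → V) (ω : Ω) (v : V) : 0 ≤ lw μ g W ω v :=
  Pw_nonneg _ (cw_nonneg μ g hμ ω) _

theorem lw_fn (μ : Ω → ℝ) (g : Ω → γ) (W : Ω → V) (ω : Ω) (f : V → ℝ) :
    ∑ v, lw μ g W ω v * f v = ∑ ω', cw μ g ω ω' * f (W ω') := by
  classical
  unfold lw Pw
  simp only [Finset.sum_mul]
  rw [Finset.sum_comm]
  refine Finset.sum_congr rfl fun ω' _ => ?_
  rw [Finset.sum_eq_single (W ω')]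
  · rw [if_pos rfl]
  · intro v _ hv
    rw [if_neg (fun h => hv h.symm), zero_mul]
  · intro h
    exact absurd (Finset.mem_univ _) h

theorem lw_sum (μ : Ω → ℝ) (hμ : ∀ ω, 0 ≤ μ ω) (g : Ω → γ) (W : Ω → V) (ω : Ω) (h : μ ω ≠ 0) :
    ∑ v, lw μ g W ω v = 1 := by
  have h1 := lw_fn μ g W ω (fun _ => 1)
  simp only [mul_one] at h1
  rw [h1, cw_sum μ g hμ ω h]

theorem lw_Pw (μ : Ω → ℝ) (g : Ω → γ) (W : Ω → V) (ω : Ω) (S : V → Prop) :
    Pw (lw μ g W ω) S = Pw (cw μ g ω) (fun ω' => S (W ω')) := by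
  classical
  have h1 := lw_fn μ g W ω (fun v => if S v then 1 else 0)
  unfold Pw
  simp only [mul_ite, mul_one, mul_zero] at h1
  exact h1

omit [Fintype V] in
theorem lw_congr (μ : Ω → ℝ) (g : Ω → γ) (W : Ω → V) {ω ω' : Ω} (h : g ω' = g ω) : lw μ g W ω' = lw μ g W ω := by
  funext v
  unfold lw
  rw [cw_congr' μ g h]

omit [Fintype V] in
/-- the value at the point itself -/
theorem lw_self (μ : Ω → ℝ) (g : Ω → γ) (W : Ω → V) (ω : Ω) :
    lw μ g W ω (W ω) = pr μ (fun ω' => (W ω', g ω')) ω / pr μ g ω := by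
  classical
  unfold lw
  rw [pr_eq_Pw μ (fun ω' => (W ω', g ω'))]
  unfold Pw
  rw [Finset.sum_div]
  refine Finset.sum_congr rfl fun ω' _ => ?_
  unfold cw
  by_cases h1 : W ω' = W ω <;> by_cases h2 : g ω' = g ω <;> simp [h1, h2]

omit [Fintype V] in
/-- absolute continuity -/
theorem lw_ac (μ : Ω → ℝ) (hμ : ∀ ω, 0 ≤ μ ω) (g : Ω → γ) (X : Ω → χ) (W : Ω → V) (ω : Ω) (v : V)
    (h : lw μ g W ω v = 0) (h0 : μ ω ≠ 0) : lw μ (fun ω => (X ω, g ω)) W ω v = 0 := by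
  classical
  by_contra hcon
  have h1 : 0 < Pw (cw μ (fun ω => (X ω, g ω)) ω) (fun ω' => W ω' = v) :=
    lt_of_le_of_ne (lw_nonneg μ hμ _ W ω v) (Ne.symm hcon)
  obtain ⟨ω', h2, h3⟩ := Pw_exists _ h1
  obtain ⟨h4, h5⟩ := cw_ne_zero μ _ h2
  have h6 : 0 < cw μ g ω ω' := by
    unfold cw
    rw [if_pos (Prod.mk.inj h4).2]
    exact div_pos (lt_of_le_of_ne (hμ ω') (Ne.symm h5)) (e1_pr_pos μ g hμ ω h0)
  have h7 : cw μ g ω ω' ≤ lw μ g W ω v := by
    unfold lw Pw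
    have := Finset.single_le_sum (f := fun ω' => if W ω' = v then cw μ g ω ω' else 0) (fun a _ => by
      split_ifs
      · exact cw_nonneg μ g hμ ω a
      · exact le_rfl) (Finset.mem_univ ω')
    simp only [h3, if_true] at this
    exact this
  linarith

/-- the divergence -/
noncomputable def kl (μ : Ω → ℝ) (g : Ω → γ) (X : Ω → χ) (W : Ω → V) (ω : Ω) : ℝ :=
  ∑ v, lw μ g W ω v * phi (lw μ (fun ω => (X ω, g ω)) W ω v / lw μ g W ω v)

theorem kl_nonneg (μ : Ω → ℝ) (hμ : ∀ ω, 0 ≤ μ ω) (g : Ω → γ) (X : Ω → χ) (W : Ω → V) (ω : Ω) :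
    0 ≤ kl μ g X W ω :=
  Finset.sum_nonneg fun v _ => mul_nonneg (lw_nonneg μ hμ g W ω v)
    (phi_nonneg (div_nonneg (lw_nonneg μ hμ _ W ω v) (lw_nonneg μ hμ g W ω v)))

/-- the mean of the divergence is the information -/
theorem kl_mean (μ : Ω → ℝ) (hμ : ∀ ω, 0 ≤ μ ω) (g : Ω → γ) (X : Ω → χ) (W : Ω → V) :
    ∑ ω, μ ω * kl μ g X W ω = Real.log 2 * MI μ W X g := by
  classical
  -- the divergence as an expectation
  have h1 : ∀ ω, μ ω * kl μ g X W ω = μ ω * ∑ ω', cw μ (fun ω => (X ω, g ω)) ω ω' *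
      (Real.log (lw μ (fun ω => (X ω, g ω)) W ω' (W ω')) - Real.log (lw μ g W ω' (W ω'))) := by
    intro ω
    by_cases h0 : μ ω = 0
    · rw [h0, zero_mul, zero_mul]
    congr 1
    have e1 : ∀ v, lw μ g W ω v * phi (lw μ (fun ω => (X ω, g ω)) W ω v / lw μ g W ω v) =
        lw μ (fun ω => (X ω, g ω)) W ω v *
          (Real.log (lw μ (fun ω => (X ω, g ω)) W ω v) - Real.log (lw μ g W ω v)) -
        lw μ (fun ω => (X ω, g ω)) W ω v + lw μ g W ω v := by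
      intro v
      by_cases hq : lw μ g W ω v = 0
      · rw [hq, lw_ac μ hμ g X W ω v hq h0]
        simp
      · by_cases hp : lw μ (fun ω => (X ω, g ω)) W ω v = 0
        · rw [hp, zero_div]
          unfold phi
          simp
        · unfold phi
          rw [Real.log_div hp hq]
          field_simp
    unfold kl
    rw [Finset.sum_congr rfl fun v _ => e1 v, Finset.sum_add_distrib, Finset.sum_sub_distrib,
      lw_sum μ hμ _ W ω h0, lw_sum μ hμ _ W ω h0, sub_add_cancel, lw_fn μ (fun ω => (X ω, g ω)) W ω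
      (fun v => Real.log (lw μ (fun ω => (X ω, g ω)) W ω v) - Real.log (lw μ g W ω v))]
    refine Finset.sum_congr rfl fun ω' _ => ?_
    by_cases h2 : cw μ (fun ω => (X ω, g ω)) ω ω' = 0
    · rw [h2, zero_mul, zero_mul]
    · obtain ⟨h3, -⟩ := cw_ne_zero μ _ h2
      rw [lw_congr μ (fun ω => (X ω, g ω)) W h3, lw_congr μ g W (Prod.mk.inj h3).2]
  rw [Finset.sum_congr rfl fun ω _ => h1 ω, sum_cw μ hμ]
  unfold MI CH
  rw [← Finset.sum_sub_distrib, Finset.mul_sum]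
  refine Finset.sum_congr rfl fun ω _ => ?_
  by_cases h0 : μ ω = 0
  · rw [h0]
    simp
  have p1 := (e1_pr_pos μ g hμ ω h0).ne'
  have p2 := (e1_pr_pos μ (fun ω' => (W ω', g ω')) hμ ω h0).ne'
  have p3 := (e1_pr_pos μ (fun ω => (X ω, g ω)) hμ ω h0).ne'
  have p4 := (e1_pr_pos μ (fun ω' => (W ω', (X ω', g ω'))) hμ ω h0).ne'
  rw [lw_self, lw_self, Real.log_div p4 p3, Real.log_div p2 p1]
  have hl : Real.log 2 ≠ 0 := (Real.log_pos (by norm_num)).ne'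
  simp only [Real.logb]
  field_simp
  ring

/-- **THE LAW OF `W` GIVEN `(X, g)` IS THE LAW GIVEN `g`** -/
theorem cle_of_mi (μ : Ω → ℝ) (hμ : ∀ ω, 0 ≤ μ ω) (g : Ω → γ) (X : Ω → χ) (W : Ω → V) {ε : ℝ} (hε : 0 < ε) :
    Pw μ (fun ω => ¬ Cle (cw μ (fun ω => (X ω, g ω)) ω) W (lw μ g W ω) ε) ≤ 4 / ε ^ 2 * MI μ W X g := by
  have h1 := Pw_markov μ hμ (kl μ g X W) (fun ω _ => kl_nonneg μ hμ g X W ω) (show 0 < ε ^ 2 / 4 by positivity)
    (le_of_eq (kl_mean μ hμ g X W))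
  have h2 : Real.log 2 * MI μ W X g / (ε ^ 2 / 4) ≤ 4 / ε ^ 2 * MI μ W X g := by
    have e1 := MI_nonneg μ hμ W X g
    have e2 : Real.log 2 ≤ 1 := by
      have := Real.log_two_lt_d9
      linarith
    have e3 : Real.log 2 * MI μ W X g / (ε ^ 2 / 4) = 4 / ε ^ 2 * (Real.log 2 * MI μ W X g) := by
      field_simp
    rw [e3]
    refine mul_le_mul_of_nonneg_left ?_ (by positivity)
    nlinarith
  refine le_trans (Pw_mono μ hμ ?_) (h1.trans h2)
  intro ω h0 hn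
  by_contra hcon
  push Not at hcon
  apply hn
  intro S
  have h3 := pinsker (lw μ (fun ω => (X ω, g ω)) W ω) (lw μ g W ω) (lw_nonneg μ hμ _ W ω) (lw_nonneg μ hμ _ W ω)
    (lw_sum μ hμ _ W ω h0) (lw_sum μ hμ _ W ω h0) (fun v hv => lw_ac μ hμ g X W ω v hv h0) S
  rw [lw_Pw] at h3
  have h4 : Real.sqrt (∑ v, lw μ g W ω v * phi (lw μ (fun ω => (X ω, g ω)) W ω v / lw μ g W ω v)) ≤ ε / 2 := by
    rw [show ε / 2 = Real.sqrt ((ε / 2) ^ 2) from (Real.sqrt_sq (by positivity)).symm]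
    apply Real.sqrt_le_sqrt
    have : (ε / 2) ^ 2 = ε ^ 2 / 4 := by ring
    rw [this]
    exact hcon
  linarith

omit [Fintype V] in
/-- the law of `W ∘ p` given `g ∘ p` is a law over the points -/
theorem lw_push {Pt : Type} [Fintype Pt] (μ : Ω → ℝ) (p : Ω → Pt) (g : Pt → γ) (W : Pt → V) (ω : Ω) :
    lw μ (fun ω => g (p ω)) (fun ω => W (p ω)) ω = lw (push p μ) g W (p ω) := by
  classical
  funext v
  have h := push_cw p μ g ω (fun q => if W q = v then 1 else 0)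
  unfold lw Pw
  simp only [mul_ite, mul_one, mul_zero] at h
  exact h.symm

/-! ### the tree -/

/-- the digits of `x` between the levels `m` and `m + ρ` -/
noncomputable def fwn (ρ m : ℕ) (x : ℝ) : Fin (2 ^ ρ) :=
  ⟨(cl (m + ρ) x - cl m x * 2 ^ ρ).toNat % 2 ^ ρ, Nat.mod_lt _ (by positivity)⟩

theorem fwn_spec (ρ m : ℕ) (x : ℝ) : cl (m + ρ) x = cl m x * 2 ^ ρ + ((fwn ρ m x : ℕ) : ℤ) := by
  have h1 := cl_window m ρ x
  rw [Finset.mem_image] at h1
  obtain ⟨k, hk, h2⟩ := h1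
  rw [Finset.mem_range] at hk
  have h3 : ((fwn ρ m x : Fin (2 ^ ρ)) : ℕ) = k := by
    show (cl (m + ρ) x - cl m x * 2 ^ ρ).toNat % 2 ^ ρ = k
    rw [← h2, add_sub_cancel_left, Int.toNat_natCast, Nat.mod_eq_of_lt hk]
  rw [h3, h2]

variable {Pt β R ι : Type}

/-- the finite window of the level `i P + s` -/
noncomputable def wf (E : ℕ → (Pt → Lb β R) → Pt → R) (F : Pt → β) (T : Pt → ℝ) (P : ℕ) (ρ : ℕ) (o : ℕ → ℕ)
    (i s : ℕ) (q : Pt) : Fin (2 ^ ρ) × R := (fwn ρ (i * P + s) (T q), er E F T P o i s q)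

variable (E : ℕ → (Pt → Lb β R) → Pt → R) (F : Pt → β) (T : Pt → ℝ) (P : ℕ)

/-- **WINDOWS SEE THE NODE LAWS** -/
theorem windows_close [Fintype R] (μ : Ω → ℝ) (hμ : ∀ ω, 0 ≤ μ ω) (p : Ω → Pt) (ρ S : ℕ) (hS : 0 < S)
    (hSP : S + ρ ≤ P) (J : Finset ι) (X : ι → Ω → χ) (L : ℕ) {ε : ℝ} (hε : 0 < ε) :
    ∃ o : ℕ → ℕ, (∀ i, o i < S) ∧
      ∑ i ∈ range L, ∑ s ∈ range S, ∑ x ∈ J,
        Pw μ (fun ω => ¬ Cle (cw μ (fun ω => (X x ω, nd E F T P o i s (p ω))) ω)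
          (fun ω => wf E F T P ρ o i s (p ω))
          (lw μ (fun ω => nd E F T P o i s (p ω)) (fun ω => wf E F T P ρ o i s (p ω)) ω) ε) ≤
      4 / ε ^ 2 * (S * ∑ x ∈ J, (CH μ (X x) (fun ω => nd E F T P o 0 0 (p ω)) -
        CH μ (X x) (fun ω => nd E F T P o L 0 (p ω)))) := by
  obtain ⟨o, ho, hsum⟩ := exists_offsets E F T P μ hμ p ρ S hS hSP J X L
  refine ⟨o, ho, ?_⟩
  have h0 : 0 ≤ 4 / ε ^ 2 := by positivity
  refine le_trans ?_ (mul_le_mul_of_nonneg_left hsum h0)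
  rw [Finset.mul_sum]
  refine Finset.sum_le_sum fun i _ => ?_
  rw [Finset.mul_sum]
  refine Finset.sum_le_sum fun s _ => ?_
  rw [Finset.mul_sum]
  refine Finset.sum_le_sum fun x _ => ?_
  refine (cle_of_mi μ hμ (fun ω => nd E F T P o i s (p ω)) (X x) (fun ω => wf E F T P ρ o i s (p ω)) hε).trans ?_
  refine mul_le_mul_of_nonneg_left ?_ h0
  rw [MI_symm, MI_symm]
  have h1 : CH μ (X x) (fun ω => (Wd E F T P ρ o i s (p ω), nd E F T P o i s (p ω))) ≤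
      CH μ (X x) (fun ω => (wf E F T P ρ o i s (p ω), nd E F T P o i s (p ω))) := by
    refine ch_cond μ hμ _ _ _ ?_
    intro ω ω' _ _ e
    simp only [Wd, wf, Prod.mk.injEq] at e ⊢
    refine ⟨⟨?_, e.1.2⟩, e.2⟩
    have e1 := e.2
    simp only [nd, Prod.mk.injEq] at e1
    unfold fwn
    rw [Fin.mk.injEq, e.1.1, e1.2.1]
  linarith

end Pool.Agent.Helper58.TR
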