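import Pool.Agent.Helper58.TR.Tree
import Pool.Agent.Helper96.RK.E3

/-!
# Windows of `T` given the nodes of a filtration with few records

* `ch_window_le` : a window of `d` digits has entropy at most `d`;
* `sum_block` : if the label `G (i + 1)` costs at most `c` bits given `G i` and the `T`-cell, the deficits of the
  blocks sum up to at most `L c` + deficit of `T`;
* `sum_window` : the same for the windows of length `ρ`, at most `ρ` times the deficits of the blocks;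
* `tree_windows` : the recorded tree.
-/

set_option autoImplicit false

namespace Pool.Agent.Helper58.TR

open Finset Pool.Agent.Helper69.RK Pool.Agent.Helper61.GL Pool.Agent.Helper58.VW

variable {Pt Ω β R χ ι γ δ : Type} [Fintype Ω]

theorem st_card [Fintype R] [Nonempty R] (μ : Ω → ℝ) (hμ : ∀ ω, 0 ≤ μ ω) (f : Ω → R) (g : Ω → γ) :
    CH μ f g ≤ Real.logb 2 (Fintype.card R) * mass μ := by
  classical
  refine le_trans (e3_card μ f g (fun _ => (Fintype.card R : ℝ)) hμ ?_) (le_of_eq ?_)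
  · intro ω _
    have h1 := Finset.card_le_univ (((univ : Finset Ω).filter (fun ω' => μ ω' ≠ 0 ∧ g ω' = g ω)).image f)
    exact_mod_cast h1
  · rw [← Finset.sum_mul, mul_comm]
    rfl

theorem ch_window_le (μ : Ω → ℝ) (hμ : ∀ ω, 0 ≤ μ ω) (T : Ω → ℝ) (g : Ω → γ) (l d : ℕ)
    (h : ∀ ω ω', μ ω ≠ 0 → μ ω' ≠ 0 → g ω = g ω' → cl l (T ω) = cl l (T ω')) :
    CH μ (fun ω => cl (l + d) (T ω)) g ≤ d * mass μ := by
  have h1 := ch_int μ hμ (fun ω => cl (l + d) (T ω)) g ((2 : ℝ) ^ d - 1)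
    (by
      have : (1 : ℝ) ≤ 2 ^ d := one_le_pow₀ (by norm_num)
      linarith)
    (by
      intro ω ω' h0 h0' hg
      have e := h ω ω' h0 h0' hg
      have hx := cl_window l d (T ω)
      have hy := cl_window l d (T ω')
      rw [Finset.mem_image] at hx hy
      obtain ⟨k, hk, hx⟩ := hx
      obtain ⟨k', hk', hy⟩ := hy
      rw [Finset.mem_range] at hk hk'
      rw [← hx, ← hy, e]
      have e2 : (k : ℝ) + 1 ≤ 2 ^ d := by exact_mod_cast hk
      have e3 : (k' : ℝ) + 1 ≤ 2 ^ d := by exact_mod_cast hk'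
      have e4 : (0 : ℝ) ≤ k := Nat.cast_nonneg _
      have e5 : (0 : ℝ) ≤ k' := Nat.cast_nonneg _
      push_cast
      rw [abs_le]
      constructor <;> linarith)
  rw [sub_add_cancel, Real.logb_pow, Real.logb_self_eq_one (by norm_num), mul_one] at h1
  exact h1

/-- blocks -/
theorem sum_block (μ : Ω → ℝ) (hμ : ∀ ω, 0 ≤ μ ω) (T : Ω → ℝ) (G : ℕ → Ω → γ) (X : Ω → χ) (P L : ℕ) (c : ℝ)
    (hc : ∀ i < L, CH μ (G (i + 1)) (fun ω => (cl ((i + 1) * P) (T ω), G i ω, X ω)) ≤ c)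
    (hd : ∀ ω ω', μ ω ≠ 0 → μ ω' ≠ 0 → G L ω = G L ω' → X ω = X ω' → cl (L * P) (T ω) = cl (L * P) (T ω')) :
    ∑ i ∈ range L, (P * mass μ - CH μ (fun ω => cl ((i + 1) * P) (T ω)) (fun ω => (G i ω, X ω))) ≤
      L * P * mass μ + L * c + CH μ (G 0) X - CH μ (fun ω => cl (L * P) (T ω)) X := by
  have h1 : ∀ M ≤ L, CH μ (G M) X ≤ CH μ (G 0) X + ∑ i ∈ range M,
      (CH μ (fun ω => cl ((i + 1) * P) (T ω)) (fun ω => (G i ω, X ω)) + c) := by
    intro M
    induction M with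
    | zero => intro _; simp
    | succ M ih =>
      intro hM
      have h2 := ih (by omega)
      have h3 := ch_tri μ hμ (G (M + 1)) (G M) X
      have h4 := ch_tri μ hμ (G (M + 1)) (fun ω => cl ((M + 1) * P) (T ω)) (fun ω => (G M ω, X ω))
      have h5 := hc M (by omega)
      rw [Finset.sum_range_succ]
      linarith
  have h2 := h1 L le_rfl
  have h3 : CH μ (fun ω => cl (L * P) (T ω)) X ≤ CH μ (G L) X :=
    ch_mono μ hμ _ _ _ (fun ω ω' a b e e' => hd ω ω' a b e e')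
  rw [Finset.sum_add_distrib, Finset.sum_const, Finset.card_range, nsmul_eq_mul] at h2
  rw [Finset.sum_sub_distrib, Finset.sum_const, Finset.card_range, nsmul_eq_mul]
  have e : (L : ℝ) * (P * mass μ) = L * P * mass μ := by ring
  rw [e]
  linarith

/-- windows inside one block -/
theorem sum_window (μ : Ω → ℝ) (hμ : ∀ ω, 0 ≤ μ ω) (T : Ω → ℝ) (g : Ω → γ) (l P S ρ : ℕ) (hSP : S + ρ ≤ P)
    (hg : ∀ ω ω', μ ω ≠ 0 → μ ω' ≠ 0 → g ω = g ω' → cl l (T ω) = cl l (T ω')) :
    ∑ s ∈ range S, (ρ * mass μ - CH μ (fun ω => cl (l + s + ρ) (T ω)) (fun ω => (cl (l + s) (T ω), g ω))) ≤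
      ρ * (P * mass μ - CH μ (fun ω => cl (l + P) (T ω)) g) := by
  set d : ℕ → ℝ := fun t => mass μ - CH μ (fun ω => cl (l + t + 1) (T ω)) (fun ω => (cl (l + t) (T ω), g ω)) with hd
  have hd0 : ∀ t, 0 ≤ d t := by
    intro t
    have := ch_window_le μ hμ T (fun ω => (cl (l + t) (T ω), g ω)) (l + t) 1
      (fun ω ω' _ _ e => (Prod.ext_iff.1 e).1)
    rw [Nat.cast_one, one_mul] at this
    rw [hd]
    simp only
    linarith
  have htel : ∀ s M, CH μ (fun ω => cl (l + s + M) (T ω)) (fun ω => (cl (l + s) (T ω), g ω)) =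
      ∑ m ∈ range M, (mass μ - d (s + m)) := by
    intro s M
    have h1 := ch_tel μ (fun m ω => cl (l + s + m) (T ω)) g (fun m ω ω' _ _ e => cl_of_le (Nat.le_succ _) e) M
    rw [show (fun ω => (cl (l + s + 0) (T ω), g ω)) = (fun ω => (cl (l + s) (T ω), g ω)) from rfl] at h1
    rw [← h1]
    refine Finset.sum_congr rfl fun m _ => ?_
    rw [hd]
    simp only
    rw [show l + (s + m) + 1 = l + s + (m + 1) by ring, show l + (s + m) = l + s + m by ring]
    ring
  have h1 : ∀ s ∈ range S, (ρ * mass μ - CH μ (fun ω => cl (l + s + ρ) (T ω))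
      (fun ω => (cl (l + s) (T ω), g ω))) = ∑ m ∈ range ρ, d (s + m) := by
    intro s _
    rw [htel s ρ, Finset.sum_sub_distrib, Finset.sum_const, Finset.card_range, nsmul_eq_mul]
    ring
  rw [Finset.sum_congr rfl h1, Finset.sum_comm]
  have h2 : ∀ m ∈ range ρ, ∑ s ∈ range S, d (s + m) ≤ ∑ t ∈ range P, d t := by
    intro m hm
    rw [Finset.mem_range] at hm
    have e1 : ∑ s ∈ range S, d (s + m) = ∑ t ∈ (range S).image (fun s => s + m), d t := by
      rw [Finset.sum_image]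
      intro a _ b _ e
      simpa using e
    rw [e1]
    refine Finset.sum_le_sum_of_subset_of_nonneg ?_ (fun t _ _ => hd0 t)
    intro t ht
    rw [Finset.mem_image] at ht
    obtain ⟨s, hs, rfl⟩ := ht
    rw [Finset.mem_range] at hs ⊢
    omega
  refine le_trans (Finset.sum_le_sum h2) ?_
  rw [Finset.sum_const, Finset.card_range, nsmul_eq_mul]
  refine mul_le_mul_of_nonneg_left (le_of_eq ?_) (Nat.cast_nonneg _)
  have h3 : CH μ (fun ω => cl (l + P) (T ω)) g =
      CH μ (fun ω => cl (l + 0 + P) (T ω)) (fun ω => (cl (l + 0) (T ω), g ω)) := by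
    apply ch_congr_right
    intro ω ω' a b
    rw [Prod.mk.injEq]
    exact ⟨fun e => ⟨hg ω ω' a b e, e⟩, fun e => e.2⟩
  have h4 : ∑ m ∈ range P, (mass μ - d (0 + m)) = P * mass μ - ∑ t ∈ range P, d t := by
    rw [Finset.sum_sub_distrib, Finset.sum_const, Finset.card_range, nsmul_eq_mul]
    congr 1
    exact Finset.sum_congr rfl fun m _ => by rw [Nat.zero_add]
  rw [h3, htel 0 P, h4]
  linarith

/-- **WINDOWS OF `T` ARE UNIFORM IN THE NODES OF THE RECORDED TREE**, all offsets, `R` finite -/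
theorem tree_windows [Fintype R] [Nonempty R] (E : ℕ → (Pt → Lb β R) → Pt → R) (F : Pt → β) (T : Pt → ℝ) (P : ℕ)
    (μ : Ω → ℝ) (hμ : ∀ ω, 0 ≤ μ ω) (p : Ω → Pt) (hT : ∀ ω, μ ω ≠ 0 → 0 ≤ T (p ω) ∧ T (p ω) < 1)
    (X : Ω → χ) (hX : ∀ ω ω', μ ω ≠ 0 → μ ω' ≠ 0 → X ω = X ω' → F (p ω) = F (p ω'))
    (ρ S : ℕ) (hSP : S + ρ ≤ P) (o : ℕ → ℕ) (L : ℕ) :
    ∑ i ∈ range L, ∑ s ∈ range S, (ρ * mass μ - CH μ (fun ω => cl (i * P + s + ρ) (T (p ω)))
        (fun ω => (nd E F T P o i s (p ω), X ω))) ≤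
      ρ * (L * P * mass μ + L * (Real.logb 2 (Fintype.card R) * mass μ) -
        CH μ (fun ω => cl (L * P) (T (p ω))) X) := by
  have h1 : ∀ i ∈ range L, ∑ s ∈ range S, (ρ * mass μ - CH μ (fun ω => cl (i * P + s + ρ) (T (p ω)))
        (fun ω => (nd E F T P o i s (p ω), X ω))) ≤
      ρ * (P * mass μ - CH μ (fun ω => cl ((i + 1) * P) (T (p ω))) (fun ω => (nd E F T P o i 0 (p ω), X ω))) := by
    intro i _
    have h2 := sum_window μ hμ (fun ω => T (p ω)) (fun ω => (nd E F T P o i 0 (p ω), X ω)) (i * P) P S ρ hSP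
      (by
        intro ω ω' _ _ e
        simp only [nd, Prod.mk.injEq] at e
        exact e.1.2.1)
    rw [show (i + 1) * P = i * P + P by ring]
    refine le_trans (le_of_eq ?_) h2
    refine Finset.sum_congr rfl fun s _ => ?_
    congr 1
    apply ch_congr_right
    intro ω ω' _ _
    simp only [nd, Prod.mk.injEq, Nat.add_zero]
    constructor
    · rintro ⟨⟨e1, e2, e3⟩, e4⟩
      exact ⟨e2, ⟨e1, cl_of_le (Nat.le_add_right _ _) e2, e3⟩, e4⟩
    · rintro ⟨e2, ⟨e1, _, e3⟩, e4⟩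
      exact ⟨⟨e1, e2, e3⟩, e4⟩
  refine le_trans (Finset.sum_le_sum h1) ?_
  rw [← Finset.mul_sum]
  refine mul_le_mul_of_nonneg_left ?_ (Nat.cast_nonneg _)
  have h3 := sum_block μ hμ (fun ω => T (p ω)) (fun i ω => nd E F T P o i 0 (p ω)) X P L
    (Real.logb 2 (Fintype.card R) * mass μ)
    (by
      intro i _
      have e1 : CH μ (fun ω => nd E F T P o (i + 1) 0 (p ω))
          (fun ω => (cl ((i + 1) * P) (T (p ω)), nd E F T P o i 0 (p ω), X ω)) ≤
          CH μ (fun ω => er E F T P o i (o i) (p ω))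
          (fun ω => (cl ((i + 1) * P) (T (p ω)), nd E F T P o i 0 (p ω), X ω)) := by
        refine ch_mono μ hμ _ _ _ ?_
        intro ω ω' _ _ e e'
        simp only [nd, Prod.mk.injEq] at e' ⊢
        refine ⟨e'.2.1.1, by simpa using e'.1, ?_⟩
        rw [recs_succ_eq_iff]
        exact ⟨e'.2.1.2.2, e⟩
      refine le_trans e1 ?_
      exact (st_card μ hμ _ _))
    (by
      intro ω ω' _ _ e _
      simp only [nd, Prod.mk.injEq, Nat.add_zero] at e
      exact e.2.1)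
  have h4 : CH μ (fun ω => nd E F T P o 0 0 (p ω)) X = 0 := by
    apply ch_zero
    intro ω ω' a b e
    simp only [nd, Prod.mk.injEq, recs]
    refine ⟨hX ω ω' a b e, ?_, trivial⟩
    have c1 := hT ω a
    have c2 := hT ω' b
    unfold cl
    rw [Nat.zero_mul, Nat.add_zero, pow_zero, one_mul, one_mul, Int.floor_eq_zero_iff.mpr ⟨c1.1, c1.2⟩,
      Int.floor_eq_zero_iff.mpr ⟨c2.1, c2.2⟩]
  rw [h4] at h3
  linarith

end Pool.Agent.Helper58.TR
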