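import Pool.Agent.Helper58.TR.Def
import Pool.Agent.Helper6.FW.Sel

/-!
# Windows of `T` of one carrier given the records of several carriers, at ALL levels, with a random shift

`lbj` : the label of level `J`: the cell of `T (q u0)`, the records of the blocks `< J / P` of all the carriers, and
`K0`.
* `mul_windows` : the deficits of the windows of length `ρ` sum up to at most twice `ρ` times the deficit of the blocks;
* `mul_shift` : the same at the levels `j + X`, `X` a function of `K0`.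
-/

set_option autoImplicit false

namespace Pool.Agent.Helper58.TR

open Finset Pool.Agent.Helper69.RK Pool.Agent.Helper61.GL Pool.Agent.Helper58.VW

variable {Pt X β R χ ι γ δ : Type} [Fintype X]

/-- the label of level `J` -/
noncomputable def lbj (E : ℕ → (Pt → Lb β R) → Pt → R) (F : Pt → β) (T : Pt → ℝ) (P : ℕ) (o : ℕ → ℕ) (q : ι → X → Pt)
    (u0 : ι) (K0 : X → χ) (J : ℕ) (x : X) : ℤ × (ι → ℕ → Option R) × χ :=
  (cl J (T (q u0 x)), fun u => recs E F T P o (J / P) (q u x), K0 x)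

/-- the deficit of the window of level `J` -/
noncomputable def dfj (E : ℕ → (Pt → Lb β R) → Pt → R) (F : Pt → β) (T : Pt → ℝ) (P : ℕ) (w : X → ℝ) (o : ℕ → ℕ)
    (q : ι → X → Pt) (u0 : ι) (K0 : X → χ) (ρ J : ℕ) : ℝ :=
  ρ * mass w - CH w (fun x => cl (J + ρ) (T (q u0 x))) (lbj E F T P o q u0 K0 J)

variable (E : ℕ → (Pt → Lb β R) → Pt → R) (F : Pt → β) (T : Pt → ℝ) (P : ℕ)

theorem dfj_nonneg (w : X → ℝ) (hw : ∀ x, 0 ≤ w x) (o : ℕ → ℕ) (q : ι → X → Pt) (u0 : ι) (K0 : X → χ) (ρ J : ℕ) :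
    0 ≤ dfj E F T P w o q u0 K0 ρ J := by
  unfold dfj
  have h := ch_window_le w hw (fun x => T (q u0 x)) (lbj E F T P o q u0 K0 J) J ρ
    (fun x y _ _ e => by
      simp only [lbj, Prod.mk.injEq] at e
      exact e.1)
  linarith

/-- one digit of block `i` (also beyond its end) given the records of the blocks `< i` -/
noncomputable def dgt (w : X → ℝ) (o : ℕ → ℕ) (q : ι → X → Pt) (u0 : ι) (K0 : X → χ) (i t : ℕ) : ℝ :=
  mass w - CH w (fun x => cl (i * P + t + 1) (T (q u0 x)))
    (fun x => (cl (i * P + t) (T (q u0 x)), (fun u => recs E F T P o i (q u x)), K0 x))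

theorem dgt_nonneg (w : X → ℝ) (hw : ∀ x, 0 ≤ w x) (o : ℕ → ℕ) (q : ι → X → Pt) (u0 : ι) (K0 : X → χ) (i t : ℕ) :
    0 ≤ dgt E F T P w o q u0 K0 i t := by
  unfold dgt
  have h := ch_window_le w hw (fun x => T (q u0 x))
    (fun x => (cl (i * P + t) (T (q u0 x)), (fun u => recs E F T P o i (q u x)), K0 x)) (i * P + t) 1
    (fun x y _ _ e => by
      simp only [Prod.mk.injEq] at e
      exact e.1)
  rw [Nat.cast_one, one_mul] at h
  linarith

/-- telescoping -/
theorem dgt_tel (w : X → ℝ) (o : ℕ → ℕ) (q : ι → X → Pt) (u0 : ι) (K0 : X → χ) (i s M : ℕ) :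
    M * mass w - CH w (fun x => cl (i * P + s + M) (T (q u0 x)))
      (fun x => (cl (i * P + s) (T (q u0 x)), (fun u => recs E F T P o i (q u x)), K0 x)) =
      ∑ m ∈ range M, dgt E F T P w o q u0 K0 i (s + m) := by
  have h1 := ch_tel w (fun m x => cl (i * P + s + m) (T (q u0 x)))
    (fun x => ((fun u => recs E F T P o i (q u x)), K0 x)) (fun m ω ω' _ _ e => cl_of_le (Nat.le_succ _) e) M
  rw [show (fun x => (cl (i * P + s + 0) (T (q u0 x)), ((fun u => recs E F T P o i (q u x)), K0 x))) =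
    (fun x => (cl (i * P + s) (T (q u0 x)), (fun u => recs E F T P o i (q u x)), K0 x)) from rfl] at h1
  rw [← h1]
  unfold dgt
  rw [Finset.sum_sub_distrib, Finset.sum_const, Finset.card_range, nsmul_eq_mul]
  congr 1
  refine Finset.sum_congr rfl fun m _ => ?_
  rw [show i * P + (s + m) + 1 = i * P + s + (m + 1) by ring, show i * P + (s + m) = i * P + s + m by ring]

/-- digits beyond the end of the block -/
theorem dgt_next (w : X → ℝ) (hw : ∀ x, 0 ≤ w x) (o : ℕ → ℕ) (q : ι → X → Pt) (u0 : ι) (K0 : X → χ) (i t : ℕ) :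
    dgt E F T P w o q u0 K0 i (P + t) ≤ dgt E F T P w o q u0 K0 (i + 1) t := by
  unfold dgt
  have h := ch_cond w hw (fun x => cl ((i + 1) * P + t + 1) (T (q u0 x)))
    (fun x => (cl ((i + 1) * P + t) (T (q u0 x)), (fun u => recs E F T P o i (q u x)), K0 x))
    (fun x => (cl ((i + 1) * P + t) (T (q u0 x)), (fun u => recs E F T P o (i + 1) (q u x)), K0 x))
    (by
      intro x y _ _ e
      simp only [Prod.mk.injEq] at e ⊢
      refine ⟨e.1, ?_, e.2.2⟩
      funext u
      exact ((recs_succ_eq_iff E F T P o i (q u x) (q u y)).mp (congrFun e.2.1 u)).1)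
  rw [show i * P + (P + t) + 1 = (i + 1) * P + t + 1 by ring, show i * P + (P + t) = (i + 1) * P + t by ring]
  linarith

/-- the deficit of a block -/
noncomputable def blk (w : X → ℝ) (o : ℕ → ℕ) (q : ι → X → Pt) (u0 : ι) (K0 : X → χ) (i : ℕ) : ℝ :=
  ∑ t ∈ range P, dgt E F T P w o q u0 K0 i t

theorem blk_nonneg (w : X → ℝ) (hw : ∀ x, 0 ≤ w x) (o : ℕ → ℕ) (q : ι → X → Pt) (u0 : ι) (K0 : X → χ) (i : ℕ) :
    0 ≤ blk E F T P w o q u0 K0 i := Finset.sum_nonneg fun _ _ => dgt_nonneg E F T P w hw o q u0 K0 _ _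

theorem dfj_block (w : X → ℝ) (hw : ∀ x, 0 ≤ w x) (o : ℕ → ℕ) (q : ι → X → Pt) (u0 : ι) (K0 : X → χ) (ρ : ℕ)
    (hρ : ρ ≤ P) (i : ℕ) :
    ∑ s ∈ range P, dfj E F T P w o q u0 K0 ρ (i * P + s) ≤
      ρ * (blk E F T P w o q u0 K0 i + blk E F T P w o q u0 K0 (i + 1)) := by
  have h1 : ∀ s ∈ range P, dfj E F T P w o q u0 K0 ρ (i * P + s) = ∑ m ∈ range ρ, dgt E F T P w o q u0 K0 i (s + m) := by
    intro s hs
    rw [mem_range] at hs
    rw [← dgt_tel]
    unfold dfj
    congr 2
    funext x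
    unfold lbj
    have h2 : (i * P + s) / P = i := by
      rw [Nat.mul_comm, Nat.mul_add_div (by omega), Nat.div_eq_of_lt hs, Nat.add_zero]
    rw [h2]
  rw [Finset.sum_congr rfl h1, Finset.sum_comm]
  have h2 : ∀ m ∈ range ρ, ∑ s ∈ range P, dgt E F T P w o q u0 K0 i (s + m) ≤
      blk E F T P w o q u0 K0 i + blk E F T P w o q u0 K0 (i + 1) := by
    intro m hm
    rw [mem_range] at hm
    -- split the sum
    have e1 : ∑ s ∈ range P, dgt E F T P w o q u0 K0 i (s + m) =
        ∑ s ∈ range (P - m), dgt E F T P w o q u0 K0 i (s + m) +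
        ∑ s ∈ range m, dgt E F T P w o q u0 K0 i (P - m + s + m) := by
      have := Finset.sum_range_add (fun s => dgt E F T P w o q u0 K0 i (s + m)) (P - m) m
      rw [Nat.sub_add_cancel (by omega)] at this
      exact this
    rw [e1]
    refine add_le_add ?_ ?_
    · have e2 : ∑ s ∈ range (P - m), dgt E F T P w o q u0 K0 i (s + m) =
          ∑ t ∈ (range (P - m)).image (fun s => s + m), dgt E F T P w o q u0 K0 i t := by
        rw [Finset.sum_image]
        intro a _ b _ e
        simpa using e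
      rw [e2]
      refine Finset.sum_le_sum_of_subset_of_nonneg ?_ (fun t _ _ => dgt_nonneg E F T P w hw o q u0 K0 i t)
      intro t ht
      rw [Finset.mem_image] at ht
      obtain ⟨s, hs, rfl⟩ := ht
      rw [Finset.mem_range] at hs ⊢
      omega
    · have e2 : ∀ s ∈ range m, dgt E F T P w o q u0 K0 i (P - m + s + m) ≤ dgt E F T P w o q u0 K0 (i + 1) s := by
        intro s _
        rw [show P - m + s + m = P + s by omega]
        exact dgt_next E F T P w hw o q u0 K0 i s
      refine le_trans (Finset.sum_le_sum e2) ?_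
      refine Finset.sum_le_sum_of_subset_of_nonneg ?_ (fun t _ _ => dgt_nonneg E F T P w hw o q u0 K0 (i + 1) t)
      intro t ht
      rw [Finset.mem_range] at ht ⊢
      omega
  refine le_trans (Finset.sum_le_sum h2) ?_
  rw [Finset.sum_const, Finset.card_range, nsmul_eq_mul]

/-- the deficits of the blocks -/
theorem sum_blk [Fintype ι] [Fintype R] [Nonempty R] (w : X → ℝ) (hw : ∀ x, 0 ≤ w x) (o : ℕ → ℕ) (q : ι → X → Pt)
    (u0 : ι) (hT : ∀ x, w x ≠ 0 → 0 ≤ T (q u0 x) ∧ T (q u0 x) < 1) (K0 : X → χ) (L : ℕ) :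
    ∑ i ∈ range L, blk E F T P w o q u0 K0 i ≤
      L * P * mass w + L * (Fintype.card ι * Real.logb 2 (Fintype.card R) * mass w) -
        CH w (fun x => cl (L * P) (T (q u0 x))) K0 := by
  classical
  have hb : ∀ i, blk E F T P w o q u0 K0 i = P * mass w - CH w (fun x => cl ((i + 1) * P) (T (q u0 x)))
      (fun x => ((cl (i * P) (T (q u0 x)), fun u => recs E F T P o i (q u x)), K0 x)) := by
    intro i
    have h1 := dgt_tel E F T P w o q u0 K0 i 0 P
    unfold blk
    rw [show (i + 1) * P = i * P + 0 + P by ring]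
    have h2 : CH w (fun x => cl (i * P + 0 + P) (T (q u0 x)))
        (fun x => ((cl (i * P) (T (q u0 x)), fun u => recs E F T P o i (q u x)), K0 x)) =
        CH w (fun x => cl (i * P + 0 + P) (T (q u0 x)))
        (fun x => (cl (i * P + 0) (T (q u0 x)), (fun u => recs E F T P o i (q u x)), K0 x)) := by
      apply ch_congr_right
      intro x y _ _
      simp only [Prod.mk.injEq, Nat.add_zero]
      tauto
    rw [h2, h1]
    exact Finset.sum_congr rfl fun t _ => by rw [Nat.zero_add]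
  rw [Finset.sum_congr rfl fun i _ => hb i]
  have hcard : Real.logb 2 (Fintype.card (ι → R)) = Fintype.card ι * Real.logb 2 (Fintype.card R) := by
    rw [Fintype.card_fun]
    push_cast
    rw [Real.logb_pow]
  have h3 := sum_block w hw (fun x => T (q u0 x))
    (fun i x => (cl (i * P) (T (q u0 x)), fun u => recs E F T P o i (q u x))) K0 P L
    (Fintype.card ι * Real.logb 2 (Fintype.card R) * mass w)
    (by
      intro i _
      have e1 : CH w (fun x => (cl ((i + 1) * P) (T (q u0 x)), fun u => recs E F T P o (i + 1) (q u x)))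
          (fun x => (cl ((i + 1) * P) (T (q u0 x)),
            (cl (i * P) (T (q u0 x)), fun u => recs E F T P o i (q u x)), K0 x)) ≤
          CH w (fun x => fun u => er E F T P o i (o i) (q u x))
          (fun x => (cl ((i + 1) * P) (T (q u0 x)),
            (cl (i * P) (T (q u0 x)), fun u => recs E F T P o i (q u x)), K0 x)) := by
        refine ch_mono w hw _ _ _ ?_
        intro x y _ _ e e'
        simp only [Prod.mk.injEq] at e' ⊢
        refine ⟨e'.1, ?_⟩
        funext u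
        exact (recs_succ_eq_iff E F T P o i (q u x) (q u y)).mpr ⟨congrFun e'.2.1.2 u, congrFun e u⟩
      refine le_trans e1 ?_
      have e2 := st_card w hw (fun x => fun u => er E F T P o i (o i) (q u x))
        (fun x => (cl ((i + 1) * P) (T (q u0 x)),
            (cl (i * P) (T (q u0 x)), fun u => recs E F T P o i (q u x)), K0 x))
      rw [hcard] at e2
      exact e2)
    (by
      intro x y _ _ e _
      simp only [Prod.mk.injEq] at e
      exact e.1)
  have h4 : CH w (fun x => (cl (0 * P) (T (q u0 x)), fun u => recs E F T P o 0 (q u x))) K0 = 0 := by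
    apply ch_zero
    intro x y a b _
    simp only [Prod.mk.injEq, recs]
    refine ⟨?_, trivial⟩
    have c1 := hT x a
    have c2 := hT y b
    unfold cl
    rw [Nat.zero_mul, pow_zero, one_mul, one_mul, Int.floor_eq_zero_iff.mpr ⟨c1.1, c1.2⟩,
      Int.floor_eq_zero_iff.mpr ⟨c2.1, c2.2⟩]
  rw [h4] at h3
  linarith

/-- **ALL LEVELS, SEVERAL CARRIERS** -/
theorem mul_windows [Fintype ι] [Fintype R] [Nonempty R] (w : X → ℝ) (hw : ∀ x, 0 ≤ w x) (o : ℕ → ℕ) (q : ι → X → Pt)
    (u0 : ι) (hT : ∀ x, w x ≠ 0 → 0 ≤ T (q u0 x) ∧ T (q u0 x) < 1) (K0 : X → χ) (ρ : ℕ) (hρ : ρ ≤ P) (L : ℕ) :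
    ∑ J ∈ range (L * P), dfj E F T P w o q u0 K0 ρ J ≤
      2 * ρ * (((L + 1 : ℕ) : ℝ) * P * mass w +
        ((L + 1 : ℕ) : ℝ) * (Fintype.card ι * Real.logb 2 (Fintype.card R) * mass w) -
        CH w (fun x => cl ((L + 1) * P) (T (q u0 x))) K0) := by
  have h0 : ∑ J ∈ range (L * P), dfj E F T P w o q u0 K0 ρ J =
      ∑ i ∈ range L, ∑ s ∈ range P, dfj E F T P w o q u0 K0 ρ (i * P + s) := by
    induction L with
    | zero => simp
    | succ L ih =>
      rw [Finset.sum_range_succ, ← ih, Nat.succ_mul, Finset.sum_range_add]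
  rw [h0]
  refine le_trans (Finset.sum_le_sum fun i _ => dfj_block E F T P w hw o q u0 K0 ρ hρ i) ?_
  rw [← Finset.mul_sum, Finset.sum_add_distrib]
  have h1 := sum_blk E F T P w hw o q u0 hT K0 (L + 1)
  have hn := fun i => blk_nonneg E F T P w hw o q u0 K0 i
  have h2 : ∑ i ∈ range L, blk E F T P w o q u0 K0 i ≤ ∑ i ∈ range (L + 1), blk E F T P w o q u0 K0 i := by
    rw [Finset.sum_range_succ]
    linarith [hn L]
  have h3 : ∑ i ∈ range L, blk E F T P w o q u0 K0 (i + 1) ≤ ∑ i ∈ range (L + 1), blk E F T P w o q u0 K0 i := by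
    rw [Finset.sum_range_succ' (fun i => blk E F T P w o q u0 K0 i)]
    linarith [hn 0]
  have h4 : ∑ i ∈ range L, blk E F T P w o q u0 K0 i + ∑ i ∈ range L, blk E F T P w o q u0 K0 (i + 1) ≤
      2 * (((L + 1 : ℕ) : ℝ) * P * mass w +
        ((L + 1 : ℕ) : ℝ) * (Fintype.card ι * Real.logb 2 (Fintype.card R) * mass w) -
        CH w (fun x => cl ((L + 1) * P) (T (q u0 x))) K0) := by
    linarith
  have h5 := mul_le_mul_of_nonneg_left h4 (Nat.cast_nonneg (α := ℝ) ρ)
  linarith

/-- **THE SAME WITH A RANDOM SHIFT** `Xs`, a function of `K0` -/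
theorem mul_shift [Fintype ι] [Fintype R] [Nonempty R] (w : X → ℝ) (hw : ∀ x, 0 ≤ w x) (o : ℕ → ℕ) (q : ι → X → Pt)
    (u0 : ι) (hT : ∀ x, w x ≠ 0 → 0 ≤ T (q u0 x) ∧ T (q u0 x) < 1) (K0 : X → χ) (Xs : X → ℕ)
    (hX : ∀ x y, w x ≠ 0 → w y ≠ 0 → K0 x = K0 y → Xs x = Xs y) (ρ : ℕ) (hρ : ρ ≤ P) (L M Xm : ℕ)
    (hXm : ∀ x, w x ≠ 0 → Xs x ≤ Xm) (hM : M + Xm ≤ L * P) :
    ∑ j ∈ range M, (ρ * mass w - CH w (fun x => cl (j + Xs x + ρ) (T (q u0 x)))
        (fun x => (cl (j + Xs x) (T (q u0 x)), (fun u => recs E F T P o ((j + Xs x) / P) (q u x)), K0 x))) ≤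
      2 * ρ * (((L + 1 : ℕ) : ℝ) * P * mass w +
        ((L + 1 : ℕ) : ℝ) * (Fintype.card ι * Real.logb 2 (Fintype.card R) * mass w) -
        CH w (fun x => cl ((L + 1) * P) (T (q u0 x))) K0) := by
  classical
  refine le_trans ?_ (mul_windows E F T P w hw o q u0 hT K0 ρ hρ L)
  -- the shift as a finite label
  set S : X → Fin (Xm + 1) := fun x => if h : Xs x ≤ Xm then ⟨Xs x, by omega⟩ else 0 with hS
  have hSv : ∀ x, w x ≠ 0 → ((S x : Fin (Xm + 1)) : ℕ) = Xs x := by
    intro x hx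
    simp only [hS]
    rw [dif_pos (hXm x hx)]
  have hres : ∀ (y : Fin (Xm + 1)) (x : X), res w (fun ω => S ω = y) x ≠ 0 → w x ≠ 0 ∧ Xs x = (y : ℕ) := by
    intro y x hx
    by_cases h : S x = y
    · rw [e4_res_pos w (fun ω => S ω = y) x h] at hx
      exact ⟨hx, by rw [← hSv x hx, h]⟩
    · rw [e4_res_neg w (fun ω => S ω = y) x h] at hx
      exact absurd rfl hx
  have hr0 : ∀ (y : Fin (Xm + 1)) (x : X), 0 ≤ res w (fun ω => S ω = y) x := fun y x => e4_res_nonneg w _ hw x
  -- left side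
  have hL : ∀ j, (ρ * mass w - CH w (fun x => cl (j + Xs x + ρ) (T (q u0 x)))
        (fun x => (cl (j + Xs x) (T (q u0 x)), (fun u => recs E F T P o ((j + Xs x) / P) (q u x)), K0 x))) =
      ∑ y : Fin (Xm + 1), dfj E F T P (res w (fun ω => S ω = y)) o q u0 K0 ρ (j + (y : ℕ)) := by
    intro j
    rw [Pool.Agent.Helper6.FW.ch_fiber w _ _ S (by
      intro x y hx hy e
      simp only [Prod.mk.injEq] at e
      apply Fin.ext
      rw [hSv x hx, hSv y hy]
      exact hX x y hx hy e.2.2), Pool.Agent.Helper6.FW.mass_fiber w S, Finset.mul_sum, ← Finset.sum_sub_distrib]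
    refine Finset.sum_congr rfl fun y _ => ?_
    unfold dfj
    congr 1
    have e1 : CH (res w (fun ω => S ω = y)) (fun x => cl (j + Xs x + ρ) (T (q u0 x)))
        (fun x => (cl (j + Xs x) (T (q u0 x)), (fun u => recs E F T P o ((j + Xs x) / P) (q u x)), K0 x)) =
        CH (res w (fun ω => S ω = y)) (fun x => cl (j + y + ρ) (T (q u0 x)))
        (fun x => (cl (j + Xs x) (T (q u0 x)), (fun u => recs E F T P o ((j + Xs x) / P) (q u x)), K0 x)) := by
      apply ch_congr_left
      intro x x' hx hx' _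
      rw [(hres y x hx).2, (hres y x' hx').2]
    rw [e1]
    apply ch_congr_right
    intro x x' hx hx'
    simp only [lbj, Prod.mk.injEq]
    rw [(hres y x hx).2, (hres y x' hx').2]
  have hR : ∀ J, dfj E F T P w o q u0 K0 ρ J =
      ∑ y : Fin (Xm + 1), dfj E F T P (res w (fun ω => S ω = y)) o q u0 K0 ρ J := by
    intro J
    unfold dfj
    rw [Pool.Agent.Helper6.FW.ch_fiber w _ _ S (by
      intro x y hx hy e
      simp only [lbj, Prod.mk.injEq] at e
      apply Fin.ext
      rw [hSv x hx, hSv y hy]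
      exact hX x y hx hy e.2.2), Pool.Agent.Helper6.FW.mass_fiber w S, Finset.mul_sum, ← Finset.sum_sub_distrib]
  rw [Finset.sum_congr rfl fun j _ => hL j, Finset.sum_comm]
  rw [Finset.sum_congr rfl fun J _ => hR J]
  rw [Finset.sum_comm (s := range (L * P))]
  refine Finset.sum_le_sum fun y _ => ?_
  have e1 : ∑ j ∈ range M, dfj E F T P (res w (fun ω => S ω = y)) o q u0 K0 ρ (j + (y : ℕ)) =
      ∑ J ∈ (range M).image (fun j => j + (y : ℕ)), dfj E F T P (res w (fun ω => S ω = y)) o q u0 K0 ρ J := by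
    rw [Finset.sum_image]
    intro a _ b _ e
    simpa using e
  rw [e1]
  refine Finset.sum_le_sum_of_subset_of_nonneg ?_ (fun J _ _ => dfj_nonneg E F T P _ (hr0 y) o q u0 K0 ρ J)
  intro J hJ
  rw [Finset.mem_image] at hJ
  obtain ⟨j, hj, rfl⟩ := hJ
  rw [Finset.mem_range] at hj ⊢
  have := y.2
  omega

end Pool.Agent.Helper58.TR
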