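import Pool.Agent.Helper61.GL.Cal
import Pool.Agent.Helper58.VW.Win

/-!
# The recorded tree (section 2 of ns_notes_58)

`T, F` functions on a set `Pt` (of elements `p`).  A node of level `m = i P + s` (block `i`, `s < P`) is
`(F, T-cell of level m, records of the blocks < i)`; the record of the block `i` is `E (i P + o i) (node) `,
`E` an arbitrary recorder with values in `R`, `o i < S` the offset.

`Ω` a finite weighted space, `p : Ω → Pt`.

* `exists_offsets` : for finitely many `X_x` there are offsets with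
  `∑_m ∑_x I((T-window, E m)(p) ; X_x | node) ≤ S ∑_x I(p ; X_x | F)`;
* `sum_def_le` : for all offsets the deficits of the windows of `T` given the nodes sum up to at most
  `ρ (L log |R| + deficit of T given F)`.
-/

set_option autoImplicit false

namespace Pool.Agent.Helper58.TR

open Finset Pool.Agent.Helper69.RK Pool.Agent.Helper61.GL Pool.Agent.Helper58.VW

variable {Pt Ω β R χ ι : Type} [Fintype Ω]

/-- labels of nodes -/
abbrev Lb (β R : Type) := β × ℤ × (ℕ → Option R)

/-- records of the blocks `< i` -/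
noncomputable def recs (E : ℕ → (Pt → Lb β R) → Pt → R) (F : Pt → β) (T : Pt → ℝ) (P : ℕ) (o : ℕ → ℕ) :
    ℕ → Pt → ℕ → Option R
  | 0 => fun _ _ => none
  | i + 1 => fun q j => if j = i then
      some (E (i * P + o i) (fun q' => (F q', cl (i * P + o i) (T q'), recs E F T P o i q')) q)
      else recs E F T P o i q j

/-- the node of level `i P + s` -/
noncomputable def nd (E : ℕ → (Pt → Lb β R) → Pt → R) (F : Pt → β) (T : Pt → ℝ) (P : ℕ) (o : ℕ → ℕ)
    (i s : ℕ) (q : Pt) : Lb β R := (F q, cl (i * P + s) (T q), recs E F T P o i q)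

/-- the quantity which is recorded, at the level `i P + s` -/
noncomputable def er (E : ℕ → (Pt → Lb β R) → Pt → R) (F : Pt → β) (T : Pt → ℝ) (P : ℕ) (o : ℕ → ℕ)
    (i s : ℕ) (q : Pt) : R := E (i * P + s) (nd E F T P o i s) q

variable (E : ℕ → (Pt → Lb β R) → Pt → R) (F : Pt → β) (T : Pt → ℝ) (P : ℕ)

theorem recs_congr (o o' : ℕ → ℕ) (i : ℕ) (h : ∀ j < i, o j = o' j) :
    recs E F T P o i = recs E F T P o' i := by
  induction i with
  | zero => rfl
  | succ i ih =>
    have h1 := ih (fun j hj => h j (Nat.lt_succ_of_lt hj))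
    funext q j
    simp only [recs]
    rw [h1, h i (Nat.lt_succ_self i)]

theorem nd_congr (o o' : ℕ → ℕ) (i s : ℕ) (h : ∀ j < i, o j = o' j) :
    nd E F T P o i s = nd E F T P o' i s := by
  funext q
  simp only [nd]
  rw [recs_congr E F T P o o' i h]

theorem er_congr (o o' : ℕ → ℕ) (i s : ℕ) (h : ∀ j < i, o j = o' j) :
    er E F T P o i s = er E F T P o' i s := by
  funext q
  simp only [er]
  rw [nd_congr E F T P o o' i s h]

theorem recs_none (o : ℕ → ℕ) (i : ℕ) (q : Pt) (j : ℕ) (h : i ≤ j) : recs E F T P o i q j = none := by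
  induction i with
  | zero => rfl
  | succ i ih =>
    simp only [recs]
    rw [if_neg (by omega)]
    exact ih (by omega)

/-- the records of the blocks `≤ i` = the old ones and the new one -/
theorem recs_succ_eq_iff (o : ℕ → ℕ) (i : ℕ) (q q' : Pt) :
    recs E F T P o (i + 1) q = recs E F T P o (i + 1) q' ↔
      recs E F T P o i q = recs E F T P o i q' ∧ er E F T P o i (o i) q = er E F T P o i (o i) q' := by
  constructor
  · intro h
    constructor
    · funext j
      by_cases hj : j = i
      · subst hj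
        rw [recs_none E F T P o j q j le_rfl, recs_none E F T P o j q' j le_rfl]
      · have h1 := congrFun h j
        simp only [recs] at h1
        rw [if_neg hj, if_neg hj] at h1
        exact h1
    · have h1 := congrFun h i
      simp only [recs, ↓reduceIte, Option.some.injEq] at h1
      exact h1
  · rintro ⟨h1, h2⟩
    funext j
    simp only [recs]
    by_cases hj : j = i
    · rw [if_pos hj, if_pos hj]
      have : er E F T P o i (o i) q = er E F T P o i (o i) q' := h2
      simp only [er] at this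
      rw [Option.some.injEq]
      exact this
    · rw [if_neg hj, if_neg hj]
      exact congrFun h1 j

theorem cl_of_le {l l' : ℕ} {x y : ℝ} (h : l ≤ l') (e : cl l' x = cl l' y) : cl l x = cl l y := by
  obtain ⟨d, rfl⟩ := Nat.exists_eq_add_of_le h
  exact cl_coarse e

/-- a finer node of the same block -/
theorem nd_of_le (o : ℕ → ℕ) {i s s' : ℕ} (h : s ≤ s') {q q' : Pt}
    (e : nd E F T P o i s' q = nd E F T P o i s' q') : nd E F T P o i s q = nd E F T P o i s q' := by
  simp only [nd, Prod.mk.injEq] at e ⊢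
  exact ⟨e.1, cl_of_le (by omega) e.2.1, e.2.2⟩

/-- the node at the beginning of the next block -/
theorem nd_next (o : ℕ → ℕ) {i : ℕ} {q q' : Pt}
    (e : nd E F T P o (i + 1) 0 q = nd E F T P o (i + 1) 0 q') :
    (∀ s ≤ P, nd E F T P o i s q = nd E F T P o i s q') ∧
      er E F T P o i (o i) q = er E F T P o i (o i) q' := by
  simp only [nd, Prod.mk.injEq] at e
  obtain ⟨e1, e2, e3⟩ := e
  rw [recs_succ_eq_iff] at e3
  refine ⟨?_, e3.2⟩
  intro s hs
  simp only [nd, Prod.mk.injEq]
  refine ⟨e1, cl_of_le ?_ e2, e3.1⟩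
  rw [Nat.succ_mul]
  omega

/-- the window of an element at the level `i P + s` -/
noncomputable def Wd (ρ : ℕ) (o : ℕ → ℕ) (i s : ℕ) (q : Pt) : ℤ × R :=
  (cl (i * P + s + ρ) (T q), er E F T P o i s q)

/-- `I(f ; X | g)` -/
noncomputable def MI {α γ : Type} (μ : Ω → ℝ) (f : Ω → α) (X : Ω → χ) (g : Ω → γ) : ℝ :=
  CH μ f g - CH μ f (fun ω => (X ω, g ω))

theorem MI_nonneg {α γ : Type} (μ : Ω → ℝ) (hμ : ∀ ω, 0 ≤ μ ω) (f : Ω → α) (X : Ω → χ) (g : Ω → γ) :
    0 ≤ MI μ f X g := by
  unfold MI
  have := ch_cond μ hμ f g (fun ω => (X ω, g ω)) (fun ω ω' _ _ h => (Prod.ext_iff.1 h).2)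
  linarith

theorem MI_symm {α γ : Type} (μ : Ω → ℝ) (f : Ω → α) (X : Ω → χ) (g : Ω → γ) :
    MI μ f X g = CH μ X g - CH μ X (fun ω => (f ω, g ω)) := ch_symm μ f X g

/-- **OFFSETS**: windows see the law of the nodes -/
theorem exists_offsets (μ : Ω → ℝ) (hμ : ∀ ω, 0 ≤ μ ω) (p : Ω → Pt) (ρ S : ℕ) (hS : 0 < S)
    (hSP : S + ρ ≤ P) (J : Finset ι) (X : ι → Ω → χ) (L : ℕ) :
    ∃ o : ℕ → ℕ, (∀ i, o i < S) ∧
      ∑ i ∈ range L, ∑ s ∈ range S, ∑ x ∈ J,
        MI μ (fun ω => Wd E F T P ρ o i s (p ω)) (X x) (fun ω => nd E F T P o i s (p ω)) ≤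
      S * ∑ x ∈ J, (CH μ (X x) (fun ω => nd E F T P o 0 0 (p ω)) -
        CH μ (X x) (fun ω => nd E F T P o L 0 (p ω))) := by
  induction L with
  | zero =>
    refine ⟨fun _ => 0, fun _ => hS, ?_⟩
    simp
  | succ L ih =>
    obtain ⟨o, ho, hsum⟩ := ih
    -- the choice of the new offset
    set g : ℕ → ℝ := fun s => ∑ x ∈ J, CH μ (X x)
      (fun ω => nd E F T P (Function.update o L s) (L + 1) 0 (p ω)) with hg
    obtain ⟨s0, hs0, hmin⟩ : ∃ s0 ∈ range S, ∀ s ∈ range S, g s0 ≤ g s :=
      Finset.exists_min_image (range S) g ⟨0, Finset.mem_range.mpr hS⟩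
    refine ⟨Function.update o L s0, ?_, ?_⟩
    · intro i
      by_cases hi : i = L
      · subst hi
        rw [Function.update_self]
        exact Finset.mem_range.mp hs0
      · rw [Function.update_of_ne hi]
        exact ho i
    have hag : ∀ s, ∀ i ≤ L, ∀ j < i, Function.update o L s j = o j := by
      intro s i hi j hj
      rw [Function.update_of_ne (by omega)]
    have hnd : ∀ s, ∀ i ≤ L, ∀ r, nd E F T P (Function.update o L s) i r = nd E F T P o i r := by
      intro s i hi r
      exact nd_congr E F T P _ _ i r (hag s i hi)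
    have hWd : ∀ s, ∀ i ≤ L, ∀ r, Wd E F T P ρ (Function.update o L s) i r = Wd E F T P ρ o i r := by
      intro s i hi r
      funext q
      simp only [Wd]
      rw [er_congr E F T P _ _ i r (hag s i hi)]
    rw [Finset.sum_range_succ]
    have h1 : ∑ i ∈ range L, ∑ s ∈ range S, ∑ x ∈ J,
        MI μ (fun ω => Wd E F T P ρ (Function.update o L s0) i s (p ω)) (X x)
          (fun ω => nd E F T P (Function.update o L s0) i s (p ω)) =
        ∑ i ∈ range L, ∑ s ∈ range S, ∑ x ∈ J,
        MI μ (fun ω => Wd E F T P ρ o i s (p ω)) (X x) (fun ω => nd E F T P o i s (p ω)) := by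
      refine Finset.sum_congr rfl fun i hi => ?_
      have hi' : i ≤ L := le_of_lt (Finset.mem_range.mp hi)
      refine Finset.sum_congr rfl fun s _ => ?_
      rw [hnd s0 i hi' s, hWd s0 i hi' s]
    rw [h1, hnd s0 0 (Nat.zero_le _) 0]
    -- one window
    have h2 : ∀ s ∈ range S, ∑ x ∈ J,
        MI μ (fun ω => Wd E F T P ρ (Function.update o L s0) L s (p ω)) (X x)
          (fun ω => nd E F T P (Function.update o L s0) L s (p ω)) ≤
        (∑ x ∈ J, CH μ (X x) (fun ω => nd E F T P o L 0 (p ω))) - g s := by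
      intro s hs
      have hsS := Finset.mem_range.mp hs
      rw [hnd s0 L le_rfl s, hWd s0 L le_rfl s, hg, ← Finset.sum_sub_distrib]
      refine Finset.sum_le_sum fun x _ => ?_
      rw [MI_symm]
      have e1 : CH μ (X x) (fun ω => nd E F T P o L s (p ω)) ≤
          CH μ (X x) (fun ω => nd E F T P o L 0 (p ω)) :=
        ch_cond μ hμ _ _ _ (fun ω ω' _ _ e => nd_of_le E F T P o (Nat.zero_le s) e)
      have e2 : CH μ (X x) (fun ω => nd E F T P (Function.update o L s) (L + 1) 0 (p ω)) ≤
          CH μ (X x) (fun ω => (Wd E F T P ρ o L s (p ω), nd E F T P o L s (p ω))) := by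
        refine ch_cond μ hμ _ _ _ ?_
        intro ω ω' _ _ e
        obtain ⟨e3, e4⟩ := nd_next E F T P _ e
        have e5 := e3 s (by omega)
        have e6 := e3 P le_rfl
        rw [hnd s L le_rfl s] at e5
        rw [Function.update_self] at e4
        rw [er_congr E F T P _ _ L s (hag s L le_rfl)] at e4
        rw [Prod.mk.injEq]
        refine ⟨?_, e5⟩
        simp only [Wd, Prod.mk.injEq]
        refine ⟨?_, e4⟩
        simp only [nd, Prod.mk.injEq] at e6
        exact cl_of_le (by omega) e6.2.1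
      linarith
    have h3 : ∑ s ∈ range S, ∑ x ∈ J,
        MI μ (fun ω => Wd E F T P ρ (Function.update o L s0) L s (p ω)) (X x)
          (fun ω => nd E F T P (Function.update o L s0) L s (p ω)) ≤
        S * ((∑ x ∈ J, CH μ (X x) (fun ω => nd E F T P o L 0 (p ω))) - g s0) := by
      calc ∑ s ∈ range S, ∑ x ∈ J,
            MI μ (fun ω => Wd E F T P ρ (Function.update o L s0) L s (p ω)) (X x)
              (fun ω => nd E F T P (Function.update o L s0) L s (p ω))
          ≤ ∑ s ∈ range S, ((∑ x ∈ J, CH μ (X x) (fun ω => nd E F T P o L 0 (p ω))) - g s0) := by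
            refine Finset.sum_le_sum fun s hs => ?_
            have a1 := h2 s hs
            have a2 := hmin s hs
            linarith
        _ = _ := by
            rw [Finset.sum_const, Finset.card_range, nsmul_eq_mul]
    have h4 : g s0 = ∑ x ∈ J, CH μ (X x)
      (fun ω => nd E F T P (Function.update o L s0) (L + 1) 0 (p ω)) := rfl
    rw [Finset.sum_sub_distrib] at hsum ⊢
    rw [← h4]
    have hS0 : (0 : ℝ) ≤ S := Nat.cast_nonneg _
    nlinarith [hsum, h3]

end Pool.Agent.Helper58.TR
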